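import Mathlib

/-!
# Pivotal elements

`P` is a finite family of monomials; `W D m` is the weight of `m` when the elements of `D` are deleted. It depends
only on `D ∩ sup m`, and it grows with `D`. An element `e` outside `D` is pivotal when deleting it raises the largest
weight strictly. If each monomial has at most `d` elements, then `2 ^ t` times the number of `D` with at least
`2 d t` pivotal elements is at most the number of all `D`.
-/

set_option autoImplicit false

open Finset

namespace Pool.Agent.Helper59.PL

variable {E ι : Type} [Fintype E] [DecidableEq E]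

/-- Deleting `e` raises the largest weight. -/
def Piv (P : Finset ι) (W : Finset E → ι → ℝ) (D : Finset E) (e : E) : Prop :=
  e ∉ D ∧ ∃ m ∈ P, ∀ m' ∈ P, W D m' < W (insert e D) m

open Classical in
/-- The set of pivotal elements. -/
noncomputable def piv (P : Finset ι) (W : Finset E → ι → ℝ) (D : Finset E) : Finset E :=
  univ.filter (Piv P W D)

omit [DecidableEq E] in
/-- The number of `t`-subsets of a set with `s * t` elements is at least `s ^ t`. -/
theorem pow_le_choose_mul (s t : ℕ) : s ^ t ≤ (s * t).choose t := by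
  classical
  have h1 : (univ : Finset (Fin t → Fin s)).card ≤
      (powersetCard t (univ : Finset (Fin t × Fin s))).card := by
    let emb : (Fin t → Fin s) → Finset (Fin t × Fin s) := fun g =>
      univ.map ⟨fun i : Fin t => (i, g i), fun _ _ h => (Prod.ext_iff.1 h).1⟩
    apply card_le_card_of_injOn emb
    · intro g _
      rw [mem_coe, mem_powersetCard]
      exact ⟨subset_univ _, by rw [card_map, card_univ, Fintype.card_fin]⟩
    · intro g _ g' _ h
      funext i
      have h2 : ((i, g i) : Fin t × Fin s) ∈ emb g := mem_map.2 ⟨i, mem_univ _, rfl⟩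
      rw [h, mem_map] at h2
      obtain ⟨j, _, hj⟩ := h2
      simp only [Function.Embedding.coeFn_mk, Prod.mk.injEq] at hj
      rw [← hj.2, hj.1]
  rw [card_powersetCard, card_univ, card_univ, Fintype.card_fun, Fintype.card_prod, Fintype.card_fin,
    Fintype.card_fin] at h1
  rwa [Nat.mul_comm s t]

section count

variable {P : Finset ι} {sup : ι → Finset E} {W : Finset E → ι → ℝ} {d : ℕ}
  (hd : ∀ m ∈ P, (sup m).card ≤ d)
  (hdep : ∀ m ∈ P, ∀ D D' : Finset E, D ∩ sup m = D' ∩ sup m → W D m = W D' m)
  (hmono : ∀ m ∈ P, ∀ D D' : Finset E, D ⊆ D' → W D m ≤ W D' m)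

include hd hdep hmono

open Classical in
theorem card_fiber (t : ℕ) : ∀ D' : Finset E,
    ((powersetCard t D').filter (fun T => ∀ e ∈ T, Piv P W (D' \ T) e)).card ≤ d ^ t := by
  induction t with
  | zero =>
    intro D'
    refine (card_filter_le _ _).trans ?_
    simp
  | succ t ih =>
    intro D'
    rcases P.eq_empty_or_nonempty with hP | hP
    · have : (powersetCard (t + 1) D').filter (fun T => ∀ e ∈ T, Piv P W (D' \ T) e) = ∅ := by
        rw [filter_eq_empty_iff]
        intro T hT h
        rw [mem_powersetCard] at hT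
        have hne : T.Nonempty := by
          rw [← card_pos]; omega
        obtain ⟨e, he⟩ := hne
        obtain ⟨-, m, hm, -⟩ := h e he
        simp [hP] at hm
      rw [this]
      simp
    obtain ⟨ms, hms, hmax⟩ := exists_max_image P (W D') hP
    have hsub : (powersetCard (t + 1) D').filter (fun T => ∀ e ∈ T, Piv P W (D' \ T) e) ⊆
        (sup ms).biUnion (fun e => ((powersetCard t (D'.erase e)).filter
          (fun T => ∀ x ∈ T, Piv P W (D'.erase e \ T) x)).image (insert e)) := by
      intro T hT
      rw [mem_filter, mem_powersetCard] at hT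
      obtain ⟨⟨hT1, hT2⟩, hT3⟩ := hT
      have hne : T.Nonempty := by
        rw [← card_pos]; omega
      obtain ⟨e0, he0⟩ := hne
      obtain ⟨-, m, hm, hlt⟩ := hT3 e0 he0
      have h1 : W (insert e0 (D' \ T)) m ≤ W D' m := by
        apply hmono m hm
        intro x hx
        rw [mem_insert, mem_sdiff] at hx
        rcases hx with rfl | hx
        · exact hT1 he0
        · exact hx.1
      have h2 : W (D' \ T) ms < W D' ms := (hlt ms hms).trans_le (h1.trans (hmax m hm))
      have h3 : ∃ e ∈ T, e ∈ sup ms := by
        by_contra hcon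
        push Not at hcon
        have : W (D' \ T) ms = W D' ms := by
          apply hdep ms hms
          ext x
          simp only [mem_inter, mem_sdiff]
          constructor
          · rintro ⟨⟨a, _⟩, b⟩
            exact ⟨a, b⟩
          · rintro ⟨a, b⟩
            exact ⟨⟨a, fun hx => hcon x hx b⟩, b⟩
        linarith
      obtain ⟨e, heT, hes⟩ := h3
      rw [mem_biUnion]
      refine ⟨e, hes, ?_⟩
      rw [mem_image]
      refine ⟨T.erase e, ?_, insert_erase heT⟩
      rw [mem_filter, mem_powersetCard]
      refine ⟨⟨erase_subset_erase _ hT1, by rw [card_erase_of_mem heT]; omega⟩, ?_⟩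
      intro x hx
      have h4 : D'.erase e \ T.erase e = D' \ T := by
        ext y
        simp only [mem_sdiff, mem_erase]
        constructor
        · rintro ⟨⟨h5, h6⟩, h7⟩
          exact ⟨h6, fun h8 => h7 ⟨h5, h8⟩⟩
        · rintro ⟨h5, h6⟩
          exact ⟨⟨fun h7 => h6 (h7 ▸ heT), h5⟩, fun h8 => h6 h8.2⟩
      rw [h4]
      exact hT3 x (mem_of_mem_erase hx)
    calc _ ≤ _ := card_le_card hsub
      _ ≤ ∑ e ∈ sup ms, (((powersetCard t (D'.erase e)).filter
          (fun T => ∀ x ∈ T, Piv P W (D'.erase e \ T) x)).image (insert e)).card := card_biUnion_le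
      _ ≤ ∑ e ∈ sup ms, d ^ t := sum_le_sum (fun e _ => card_image_le.trans (ih _))
      _ = (sup ms).card * d ^ t := by rw [sum_const, smul_eq_mul]
      _ ≤ d * d ^ t := Nat.mul_le_mul_right _ (hd ms hms)
      _ = d ^ (t + 1) := by ring

/-- The sum over all `D` of the number of `t`-sets of pivotal elements. -/
theorem sum_choose (t : ℕ) :
    ∑ D : Finset E, ((piv P W D).card).choose t ≤ 2 ^ (Fintype.card E) * d ^ t := by
  classical
  have h1 : ∑ D : Finset E, ((piv P W D).card).choose t =
      (univ.sigma (fun D : Finset E => powersetCard t (piv P W D))).card := by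
    rw [card_sigma]
    simp
  have h2 : (univ.sigma (fun D : Finset E => powersetCard t (piv P W D))).card ≤
      (univ.sigma (fun D' : Finset E =>
        (powersetCard t D').filter (fun T => ∀ e ∈ T, Piv P W (D' \ T) e))).card := by
    apply card_le_card_of_injOn (fun x => (⟨x.1 ∪ x.2, x.2⟩ : Σ _ : Finset E, Finset E))
    · rintro ⟨D, T⟩ hx
      rw [mem_coe, mem_sigma, mem_powersetCard] at hx
      obtain ⟨-, hT1, hT2⟩ := hx
      simp only at hT1 hT2
      rw [mem_coe, mem_sigma, mem_filter, mem_powersetCard]
      refine ⟨mem_univ _, ⟨subset_union_right, hT2⟩, ?_⟩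
      intro e he
      have h3 : (D ∪ T) \ T = D := by
        apply union_sdiff_cancel_right
        rw [disjoint_left]
        intro x hx1 hx2
        have := hT1 hx2
        rw [piv, mem_filter] at this
        exact this.2.1 hx1
      show Piv P W ((D ∪ T) \ T) e
      rw [h3]
      have := hT1 he
      rw [piv, mem_filter] at this
      exact this.2
    · rintro ⟨D, T⟩ hx ⟨D2, T2⟩ hx2 h
      rw [mem_coe, mem_sigma, mem_powersetCard] at hx hx2
      obtain ⟨-, hT1, -⟩ := hx
      obtain ⟨-, hT2, -⟩ := hx2
      simp only [Sigma.mk.injEq, heq_eq_eq] at h hT1 hT2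
      obtain ⟨h3, h4⟩ := h
      subst h4
      have h5 : ∀ D : Finset E, T ⊆ piv P W D → (D ∪ T) \ T = D := by
        intro D hD
        apply union_sdiff_cancel_right
        rw [disjoint_left]
        intro x hx1 hx2
        have := hD hx2
        rw [piv, mem_filter] at this
        exact this.2.1 hx1
      have h6 : D = D2 := by
        rw [← h5 D hT1, ← h5 D2 hT2, h3]
      rw [h6]
  rw [h1]
  refine h2.trans ?_
  rw [card_sigma]
  calc _ ≤ ∑ D' : Finset E, d ^ t := sum_le_sum (fun D' _ => card_fiber hd hdep hmono t D')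
    _ = 2 ^ (Fintype.card E) * d ^ t := by
      rw [sum_const, smul_eq_mul, card_univ, Fintype.card_finset]

/-- Few sets `D` have many pivotal elements. -/
theorem card_piv (hd0 : 0 < d) (t : ℕ) :
    (univ.filter (fun D : Finset E => 2 * d * t ≤ (piv P W D).card)).card * 2 ^ t ≤
      2 ^ (Fintype.card E) := by
  classical
  have h1 : (univ.filter (fun D : Finset E => 2 * d * t ≤ (piv P W D).card)).card * (2 * d) ^ t ≤
      2 ^ (Fintype.card E) * d ^ t := by
    calc (univ.filter (fun D : Finset E => 2 * d * t ≤ (piv P W D).card)).card * (2 * d) ^ t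
        = ∑ D ∈ univ.filter (fun D : Finset E => 2 * d * t ≤ (piv P W D).card), (2 * d) ^ t := by
          rw [sum_const, smul_eq_mul]
      _ ≤ ∑ D ∈ univ.filter (fun D : Finset E => 2 * d * t ≤ (piv P W D).card),
          ((piv P W D).card).choose t := by
          apply sum_le_sum
          intro D hD
          rw [mem_filter] at hD
          exact (pow_le_choose_mul (2 * d) t).trans (Nat.choose_le_choose t hD.2)
      _ ≤ ∑ D : Finset E, ((piv P W D).card).choose t :=
          sum_le_sum_of_subset (filter_subset _ _)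
      _ ≤ _ := sum_choose hd hdep hmono t
  have h2 : 0 < d ^ t := by positivity
  rw [mul_pow, ← mul_assoc] at h1
  exact Nat.le_of_mul_le_mul_right h1 h2

/-- The same for marks `μ : E → Bool`, where `true` means deleted. -/
theorem card_piv_bool (hd0 : 0 < d) (t : ℕ) :
    (univ.filter (fun μ : E → Bool =>
      2 * d * t ≤ (piv P W (univ.filter fun e => μ e = true)).card)).card * 2 ^ t ≤
      2 ^ (Fintype.card E) := by
  classical
  refine le_trans (Nat.mul_le_mul_right _ ?_) (card_piv hd hdep hmono hd0 t)
  apply card_le_card_of_injOn (fun μ : E → Bool => univ.filter fun e => μ e = true)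
  · intro μ hμ
    rw [mem_coe, mem_filter] at hμ ⊢
    exact ⟨mem_univ _, hμ.2⟩
  · intro μ _ ν _ h
    funext e
    have h1 : (e ∈ univ.filter fun e => μ e = true) ↔ (e ∈ univ.filter fun e => ν e = true) := by
      have h2 : (univ.filter fun e => μ e = true) = (univ.filter fun e => ν e = true) := h
      rw [h2]
    simp only [mem_filter, mem_univ, true_and] at h1
    cases h3 : μ e <;> cases h4 : ν e <;> simp_all

end count

/-! ## Weights of monomials -/

/-- The weight `A m * R ^ (number of deleted elements of m, with multiplicity)`. -/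
noncomputable def wtm (R : ℝ) (ex : ι → E → ℕ) (A : ι → ℝ) (D : Finset E) (m : ι) : ℝ :=
  A m * R ^ (∑ e ∈ D, ex m e)

omit [Fintype E] [DecidableEq E] in
theorem wtm_nonneg {R : ℝ} (hR : 1 ≤ R) {ex : ι → E → ℕ} {A : ι → ℝ} {D : Finset E} {m : ι} (hA : 0 ≤ A m) :
    0 ≤ wtm R ex A D m := by
  unfold wtm
  positivity

/-- An element of `m` which is neither deleted nor pivotal makes `m` lighter than the largest weight by `R`. -/
theorem light {P : Finset ι} {R : ℝ} (hR : 1 ≤ R) {ex : ι → E → ℕ} {A : ι → ℝ} (hA : ∀ m ∈ P, 0 ≤ A m)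
    {D : Finset E} {m : ι} (hm : m ∈ P) {e : E} (he : e ∉ D) (hex : ex m e ≠ 0)
    (hpe : e ∉ piv P (wtm R ex A) D) : ∃ m' ∈ P, R * wtm R ex A D m ≤ wtm R ex A D m' := by
  classical
  have h1 : ¬ Piv P (wtm R ex A) D e := by
    intro h
    apply hpe
    rw [piv, mem_filter]
    exact ⟨mem_univ _, h⟩
  unfold Piv at h1
  push Not at h1
  obtain ⟨m', hm', hle⟩ := h1 he m hm
  refine ⟨m', hm', le_trans ?_ hle⟩
  unfold wtm
  rw [sum_insert he, pow_add]
  have h2 : R ≤ R ^ (ex m e) := le_self_pow₀ hR hex
  have h3 : 0 ≤ A m * R ^ (∑ e ∈ D, ex m e) := mul_nonneg (hA m hm) (by positivity)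
  calc R * (A m * R ^ (∑ e ∈ D, ex m e)) ≤ R ^ (ex m e) * (A m * R ^ (∑ e ∈ D, ex m e)) :=
        mul_le_mul_of_nonneg_right h2 h3
    _ = _ := by ring

/-- The number of mark functions with at least `2 d t` pivotal elements, for weights of monomials. -/
theorem card_piv_wtm {P : Finset ι} {R : ℝ} (hR : 1 ≤ R) {ex : ι → E → ℕ} {A : ι → ℝ}
    (hA : ∀ m ∈ P, 0 ≤ A m) {d : ℕ} (hd : ∀ m ∈ P, (univ.filter fun e => ex m e ≠ 0).card ≤ d)
    (hd0 : 0 < d) (t : ℕ) :
    (univ.filter (fun μ : E → Bool =>
      2 * d * t ≤ (piv P (wtm R ex A) (univ.filter fun e => μ e = true)).card)).card * 2 ^ t ≤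
      2 ^ (Fintype.card E) := by
  classical
  apply card_piv_bool (sup := fun m => univ.filter fun e => ex m e ≠ 0) hd _ _ hd0 t
  · intro m _ D D' h
    unfold wtm
    congr 2
    have h1 : ∀ D : Finset E, ∑ e ∈ D, ex m e = ∑ e ∈ D ∩ univ.filter (fun e => ex m e ≠ 0), ex m e := by
      intro D
      rw [← filter_mem_eq_inter, sum_filter]
      apply sum_congr rfl
      intro x _
      by_cases hx : ex m x = 0
      · simp [hx]
      · simp [hx]
    rw [h1 D, h1 D', h]
  · intro m hm D D' h
    unfold wtm
    apply mul_le_mul_of_nonneg_left _ (hA m hm)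
    exact pow_le_pow_right₀ hR (sum_le_sum_of_subset h)

end Pool.Agent.Helper59.PL
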